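import Mathlib
import Pool.Agent.H19.OG.Defs
import Pool.Agent.H19.OG.Bas

/-!
# OG, row PLN: the plane spanned by a nef class `L` on the boundary and an ample class `H`
-/

namespace Pool.OG

variable {X : Data}

/-- the cube of `H + θ L`, `L^3 = 0` -/
theorem pln_cube (hP : Pos X) (h l : Fin X.n → ℝ) (hl : tri X.t l l l = 0) (θ : ℝ) :
    tri X.t (h + θ • l) (h + θ • l) (h + θ • l) =
      3 * tri X.t l l h * θ ^ 2 + 3 * tri X.t l h h * θ + tri X.t h h h := by
  have e1 : tri X.t h l h = tri X.t l h h := tri_symm1 hP _ _ _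
  have e2 : tri X.t h h l = tri X.t l h h := by rw [tri_symm2 hP, tri_symm1 hP]
  have e3 : tri X.t l h l = tri X.t l l h := tri_symm2 hP _ _ _
  have e4 : tri X.t h l l = tri X.t l l h := by rw [tri_symm1 hP, tri_symm2 hP]
  simp only [tri_add1, tri_add2, tri_add3, tri_smul1, tri_smul2, tri_smul3, e1, e2, e3, e4, hl]
  ring

/-- the point where the ray from `H` in the direction `-L` leaves the nef cone -/
theorem pln_exit (hP : Pos X) (L H : Fin X.n → ℤ) (hL0 : L ≠ 0) (hLn : re L ∈ Nef X)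
    (hH : X.Ample H) : ∃ t : ℝ, 0 < t ∧ re H - t • re L ∈ Nef X ∧
      re H - t • re L ∉ interior (Nef X) ∧
      ∀ s : ℝ, 0 ≤ s → s < t → re H - s • re L ∈ interior (Nef X) := by
  have hHi := ample_int hP hH
  -- the set of parameters
  obtain ⟨S, hS⟩ : ∃ S : Set ℝ, S = {t : ℝ | re H - t • re L ∈ Nef X} := ⟨_, rfl⟩
  have hmem : ∀ t, t ∈ S ↔ re H - t • re L ∈ Nef X := fun t => by rw [hS]; rfl
  have hcl : IsClosed S := by
    rw [hS]
    exact nef_closed.preimage (by fun_prop)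
  have h0 : (0 : ℝ) ∈ S := by
    rw [hmem, zero_smul, sub_zero]
    exact int_nef hHi
  -- bounded above
  obtain ⟨C, hC⟩ : ∃ C, 0 < lin (X.dg C) (re L) := by
    by_contra hno
    push Not at hno
    exact hL0 (hP.numerical L fun C => le_antisymm (hno C) (hLn C))
  have hbd : BddAbove S := by
    refine ⟨lin (X.dg C) (re H) / lin (X.dg C) (re L), fun t ht => ?_⟩
    have h1 := (hmem t).1 ht C
    rw [lin_sub, lin_smul] at h1
    rw [le_div_iff₀ hC]
    linarith
  obtain ⟨ε, hε, hεi⟩ := int_absorb hHi (re L)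
  have hεS : ε ∈ S := (hmem ε).2 (int_nef hεi)
  have htS : sSup S ∈ S := hcl.csSup_mem ⟨0, h0⟩ hbd
  have htp : 0 < sSup S := lt_of_lt_of_le hε (le_csSup hbd hεS)
  refine ⟨sSup S, htp, (hmem _).1 htS, ?_, ?_⟩
  · intro hi
    obtain ⟨δ, hδ, hδi⟩ := int_absorb hi (re L)
    have h2 : sSup S + δ ∈ S := by
      rw [hmem, add_smul, ← sub_sub]
      exact int_nef hδi
    have := le_csSup hbd h2
    linarith
  · intro s hs0 hst
    have h3 : re H - s • re L = (1 - s / sSup S) • re H + (s / sSup S) • (re H - sSup S • re L) := by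
      rw [smul_sub, smul_smul, div_mul_cancel₀ _ htp.ne', sub_smul, one_smul]
      abel
    rw [h3]
    refine int_add (int_smul ?_ hHi) (nef_smul (div_nonneg hs0 htp.le) ((hmem _).1 htS))
    rw [sub_pos, div_lt_one htp]
    exact hst

/-- **PLN**, from row ONE. -/
theorem plane_of (hX : Facts X) (hR : ¬ X.RC)
    (hone : ∀ D : Fin X.n → ℤ, D ≠ 0 → re D ∈ Nef X → tri X.t (re D) (re D) (re D) = 0 →
      lin X.c2 (re D) = 0)
    (L : Fin X.n → ℤ) (hL0 : L ≠ 0)
    (hLn : re L ∈ Nef X) (hLa : ¬ X.Ample L) (H : Fin X.n → ℤ) (hH : X.Ample H) :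
    ∃ (A B C : ℤ) (θ : ℝ), 0 < A ∧ 0 < B ∧ 0 < C ∧
      (A : ℝ) = 3 * tri X.t (re L) (re L) (re H) ∧ (B : ℝ) = 3 * tri X.t (re L) (re H) (re H) ∧
      (C : ℝ) = tri X.t (re H) (re H) (re H) ∧ tri X.t (re L) (re L) (re L) = 0 ∧
      lin X.c2 (re L) = 0 ∧ Irrational θ ∧ θ < 0 ∧ A * θ ^ 2 + B * θ + C = 0 ∧
      0 < 2 * A * θ + B ∧ re H + θ • re L ∈ Nef X ∧
      tri X.t (re H + θ • re L) (re H + θ • re L) (re H + θ • re L) = 0 := by
  have hP := hX.pos
  have hLi : re L ∉ interior (Nef X) := fun h => hLa ((hP.kleiman L).2 h)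
  have hL3 := bdry_cube hP hR hLn hLi
  have hLc := hone L hL0 hLn hL3
  obtain ⟨t, ht0, htN, hti, hts⟩ := pln_exit hP L H hL0 hLn hH
  have hMe : re H - t • re L = re H + (-t) • re L := by rw [neg_smul, sub_eq_add_neg]
  have hM3 := bdry_cube hP hR htN hti
  rw [hMe] at hM3 htN
  have hHc := hP.ample_cube H hH
  -- `θ = -t` is irrational
  have hirr : Irrational (-t) := by
    rintro ⟨r, hr⟩
    have hden : (0 : ℝ) < (r.den : ℝ) := by exact_mod_cast r.den_pos
    have hrn : (r.den : ℝ) * (-t) = (r.num : ℝ) := by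
      rw [← hr]
      exact_mod_cast Rat.den_mul_eq_num r
    have hD : re ((r.den : ℤ) • H + r.num • L) = (r.den : ℝ) • (re H + (-t) • re L) := by
      rw [re_add, re_smul, re_smul, smul_add, smul_smul, hrn]
      norm_cast
    have hD0 : (r.den : ℤ) • H + r.num • L ≠ 0 := by
      intro h0
      rw [h0, re_zero] at hD
      have h1 : re H + (-t) • re L = 0 := by
        rcases smul_eq_zero.1 hD.symm with h2 | h2
        · exact absurd h2 hden.ne'
        · exact h2
      have h2 : re H = t • re L := by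
        rw [neg_smul] at h1
        exact eq_of_sub_eq_zero (by rw [sub_eq_add_neg]; exact h1)
      rw [h2, tri_smul1, tri_smul2, tri_smul3, hL3] at hHc
      simp at hHc
    have hDn : re ((r.den : ℤ) • H + r.num • L) ∈ Nef X := by
      rw [hD]
      exact nef_smul hden.le htN
    have hD3 : tri X.t (re ((r.den : ℤ) • H + r.num • L)) (re ((r.den : ℤ) • H + r.num • L))
        (re ((r.den : ℤ) • H + r.num • L)) = 0 := by
      rw [hD, tri_smul1, tri_smul2, tri_smul3, hM3]
      ring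
    have h3 := hone _ hD0 hDn hD3
    rw [hD, lin_smul, lin_add, lin_smul, hLc] at h3
    have h4 := hP.c2_pos H hH
    have h5 := mul_pos hden h4
    rw [mul_zero, add_zero] at h3
    linarith
  -- the coefficients
  have hA : ((3 * triZ X.t L L H : ℤ) : ℝ) = 3 * tri X.t (re L) (re L) (re H) := by
    rw [tri_re]; push_cast; ring
  have hB : ((3 * triZ X.t L H H : ℤ) : ℝ) = 3 * tri X.t (re L) (re H) (re H) := by
    rw [tri_re]; push_cast; ring
  have hC : ((triZ X.t H H H : ℤ) : ℝ) = tri X.t (re H) (re H) (re H) := by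
    rw [tri_re]
  obtain ⟨A, hAd⟩ : ∃ A : ℤ, A = 3 * triZ X.t L L H := ⟨_, rfl⟩
  obtain ⟨B, hBd⟩ : ∃ B : ℤ, B = 3 * triZ X.t L H H := ⟨_, rfl⟩
  obtain ⟨C, hCd⟩ : ∃ C : ℤ, C = triZ X.t H H H := ⟨_, rfl⟩
  rw [← hAd] at hA
  rw [← hBd] at hB
  rw [← hCd] at hC
  have hHn := ample_nef hP hH
  have hA0 : (0 : ℝ) ≤ A := by
    rw [hA]
    have := hP.nef_mul _ hLn _ hLn _ hHn
    linarith
  have hB0 : (0 : ℝ) ≤ B := by
    rw [hB]
    have := hP.nef_mul _ hLn _ hHn _ hHn
    linarith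
  have hC0 : (0 : ℝ) < C := by rw [hC]; exact hHc
  have hroot : (A : ℝ) * (-t) ^ 2 + B * (-t) + C = 0 := by
    have h1 := pln_cube hP (re H) (re L) hL3 (-t)
    rw [hM3, ← hA, ← hB, ← hC] at h1
    exact h1.symm
  have hf : ∀ s : ℝ, 0 ≤ s → s < t → 0 < (A : ℝ) * s ^ 2 - B * s + C := by
    intro s hs0 hst
    have h1 := hts s hs0 hst
    have h2 := int_pos hP h1 h1 h1
    have h3 : re H - s • re L = re H + (-s) • re L := by rw [neg_smul, sub_eq_add_neg]
    rw [h3, pln_cube hP (re H) (re L) hL3 (-s), ← hA, ← hB, ← hC] at h2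
    nlinarith
  have hBp : (0 : ℝ) < B := by
    rcases hB0.lt_or_eq with h | h
    · exact h
    · exfalso
      rw [← h] at hroot
      nlinarith [mul_nonneg hA0 (sq_nonneg (-t))]
  have hAp : (0 : ℝ) < A := by
    rcases hA0.lt_or_eq with h | h
    · exact h
    · exfalso
      rw [← h, zero_mul, zero_add] at hroot
      apply hirr
      refine ⟨-(C : ℚ) / (B : ℚ), ?_⟩
      push_cast
      rw [div_eq_iff hBp.ne']
      linarith
  have hle : 2 * (A : ℝ) * t ≤ B := by
    by_contra hno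
    push Not at hno
    by_cases h1 : 0 ≤ (B : ℝ) / A - t
    · have h2 : (B : ℝ) / A - t < t := by
        rw [sub_lt_iff_lt_add, div_lt_iff₀ hAp]
        linarith
      have h3 := hf _ h1 h2
      have h4 : (A : ℝ) * ((B : ℝ) / A) = B := by field_simp
      have h5 : (A : ℝ) * ((B : ℝ) / A - t) ^ 2 - B * ((B : ℝ) / A - t) + C =
          A * (-t) ^ 2 + B * (-t) + C := by
        have : (A : ℝ) * ((B : ℝ) / A - t) ^ 2 =
            (A * ((B : ℝ) / A)) * ((B : ℝ) / A) - 2 * (A * ((B : ℝ) / A)) * t + A * t ^ 2 := by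
          ring
        rw [this, h4]
        ring
      rw [h5, hroot] at h3
      exact lt_irrefl _ h3
    · push Not at h1
      have h2 : (B : ℝ) < A * t := by
        have h3 : (B : ℝ) / A < t := by linarith
        rw [div_lt_iff₀ hAp] at h3
        linarith
      nlinarith [mul_pos ht0 (sub_pos.2 h2)]
  refine ⟨A, B, C, -t, ?_, ?_, ?_, hA, hB, hC, hL3, hLc, hirr, by linarith, hroot, ?_, htN, hM3⟩
  · exact_mod_cast hAp
  · exact_mod_cast hBp
  · exact_mod_cast hC0
  · rcases hle.lt_or_eq with h | h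
    · linarith
    · exfalso
      apply hirr
      refine ⟨-(B : ℚ) / (2 * A : ℚ), ?_⟩
      push_cast
      rw [div_eq_iff (by positivity)]
      linarith

end Pool.OG
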